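import Mathlib
import Pool.Agent.Helper58.QD.Stub
import Pool.Agent.Helper38.DG.AdvTools

/-!
# QuantifierGap, block H: rudimentary sets are in the polynomial-time hierarchy, and two bounds
-/

set_option autoImplicit false

namespace Pool.Agent.Helper14.QG

open Pool.Agent.Helper20.Spectra Pool.Agent.Helper58.QD Filter

theorem rudPH : StmtRudPH := by
  intro A hA
  obtain ⟨E, hE, h⟩ := Pool.Agent.Helper38.DG.AdvT.exists_pair (P := fun n _ => n ∈ A)
    (RudX.mem hA (Pool.Agent.Helper20.Spectra.IsPoly.var 0))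
  exact ⟨E, 0, hE, fun n _ p _ => (h n p).symm⟩

theorem diagR_of (h : StmtDiagT) (h0 : StmtRudPH) : StmtDiagR := by
  intro T hT hTi hQ
  obtain ⟨φ, hφ⟩ := h T hT hTi (fun A hA => h0 A (hQ A hA))
  exact ⟨φ, fun h1 => hφ (h0 _ h1)⟩

theorem log_pow_le {B X N : ℕ} (_hB : 2 ≤ B) (h : N < B ^ X) (hX : 1 ≤ X) :
    Nat.log 2 N + 1 ≤ X * (Nat.log 2 B + 1) := by
  have h1 : B < 2 ^ (Nat.log 2 B + 1) := Nat.lt_pow_succ_log_self (by norm_num) B
  have h2 : B ^ X ≤ 2 ^ (X * (Nat.log 2 B + 1)) := by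
    rw [mul_comm, pow_mul]
    exact Nat.pow_le_pow_left h1.le X
  rcases Nat.eq_zero_or_pos N with rfl | hN
  · have h3 : 1 * 1 ≤ X * (Nat.log 2 B + 1) := Nat.mul_le_mul hX (by omega)
    simp only [Nat.log_zero_right]
    omega
  · exact Nat.log_lt_of_lt_pow (by omega) (h.trans_le h2)

theorem log_growth (c K : ℕ) : ∃ g0, ∀ g, g0 ≤ g → ∀ n, n ≤ (g + 1) ^ K →
    (Nat.log 2 n + 1) ^ c ≤ g := by
  have h := tendsto_pow_const_div_const_pow_of_one_lt c (r := (2 : ℝ)) (by norm_num)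
  have hε : (0 : ℝ) < 1 / (4 * (K + 1) ^ c) := by positivity
  have h1 := (h.eventually (gt_mem_nhds hε)).and (eventually_ge_atTop 2)
  obtain ⟨x₀, hx₀⟩ := eventually_atTop.1 h1
  refine ⟨2 ^ x₀, fun g hg n hn => ?_⟩
  have hg1 : 1 ≤ g := Nat.one_le_two_pow.trans hg
  obtain ⟨x, hx⟩ : ∃ x, x = Nat.log 2 (g + 1) + 1 := ⟨_, rfl⟩
  have hx1 : x₀ ≤ x := by
    have h2 : x₀ ≤ Nat.log 2 (g + 1) := Nat.le_log_of_pow_le (by norm_num) (by omega)
    omega
  have hx2 : 2 ^ (x - 1) ≤ g + 1 := by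
    have h2 : x - 1 = Nat.log 2 (g + 1) := by omega
    rw [h2]
    exact Nat.pow_log_le_self 2 (by omega)
  have h3 : Nat.log 2 n + 1 ≤ (K + 1) * x := by
    have h4 : n < (g + 1) ^ (K + 1) := by
      refine lt_of_le_of_lt hn (Nat.pow_lt_pow_right (by omega) (by omega))
    have h5 := log_pow_le (B := g + 1) (X := K + 1) (by omega) h4 (by omega)
    rw [hx]
    exact h5
  obtain ⟨h6, h7⟩ := hx₀ x hx1
  have h8 : 4 * ((K + 1) * x) ^ c ≤ 2 ^ x := by
    have h9 : (4 * ((K + 1) * x) ^ c : ℝ) ≤ 2 ^ x := by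
      rw [div_lt_div_iff₀ (by positivity) (by positivity)] at h6
      rw [mul_pow]
      linarith
    exact_mod_cast h9
  have h10 : (Nat.log 2 n + 1) ^ c ≤ ((K + 1) * x) ^ c := Nat.pow_le_pow_left h3 c
  have h11 : 2 ^ x = 2 * 2 ^ (x - 1) := by
    rw [← pow_succ']
    congr 1
    omega
  omega

end Pool.Agent.Helper14.QG
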