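import Mathlib

/-!
# QuantifierGap, block H: levels which meet an infinite set
-/

set_option autoImplicit false

namespace Pool.Agent.Helper14.QG

/-- the level `[a ^ K, (a + 1) ^ K)` contains `x - 1` for some positive `x` in `T` -/
def Lv (T : Set ℕ) (K a : ℕ) : Prop := ∃ x ∈ T, 1 ≤ x ∧ a ^ K ≤ x - 1 ∧ x - 1 < (a + 1) ^ K

open Classical in
/-- the number of the levels below `g` which meet `T` -/
noncomputable def lc (T : Set ℕ) (K g : ℕ) : ℕ := Nat.count (Lv T K) g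

lemma lc_zero (T : Set ℕ) (K : ℕ) : lc T K 0 = 0 := by
  classical
  unfold lc
  exact Nat.count_zero _

lemma lc_succ_of {T : Set ℕ} {K a : ℕ} (h : Lv T K a) : lc T K (a + 1) = lc T K a + 1 := by
  classical
  unfold lc
  rw [Nat.count_succ, if_pos h]

lemma lc_succ_not {T : Set ℕ} {K a : ℕ} (h : ¬ Lv T K a) : lc T K (a + 1) = lc T K a := by
  classical
  unfold lc
  rw [Nat.count_succ, if_neg h, add_zero]

lemma lc_le (T : Set ℕ) (K g : ℕ) : lc T K g ≤ g := by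
  classical
  unfold lc
  exact Nat.count_le _

/-- every number has a level (`K ≥ 1`) -/
lemma exists_level {K : ℕ} (hK : 1 ≤ K) (m : ℕ) : ∃ a, a ^ K ≤ m ∧ m < (a + 1) ^ K := by
  refine ⟨Nat.findGreatest (fun a => a ^ K ≤ m) m, ?_, ?_⟩
  · refine Nat.findGreatest_spec (P := fun a => a ^ K ≤ m) (Nat.zero_le m) ?_
    rw [zero_pow (by omega)]
    exact Nat.zero_le _
  · by_contra h
    push Not at h
    have h1 : (Nat.findGreatest (fun a => a ^ K ≤ m) m) + 1 ≤ m := by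
      refine le_trans ?_ h
      exact Nat.le_self_pow (by omega) _
    have h2 := Nat.le_findGreatest (P := fun a => a ^ K ≤ m) h1 h
    omega

lemma level_unique {K a b m : ℕ} (h1 : a ^ K ≤ m) (h2 : m < (a + 1) ^ K) (h3 : b ^ K ≤ m)
    (h4 : m < (b + 1) ^ K) : a = b := by
  have h5 : a < b + 1 := lt_of_pow_lt_pow_left₀ K (by omega) (lt_of_le_of_lt h1 h4)
  have h6 : b < a + 1 := lt_of_pow_lt_pow_left₀ K (by omega) (lt_of_le_of_lt h3 h2)
  omega

lemma lv_infinite {T : Set ℕ} (hT : T.Infinite) {K : ℕ} (hK : 1 ≤ K) :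
    {a | Lv T K a}.Infinite := by
  rw [Set.infinite_iff_exists_gt]
  intro b
  obtain ⟨x, hx, hbx⟩ := (Set.infinite_iff_exists_gt.1 hT) ((b + 2) ^ K)
  obtain ⟨a, h1, h2⟩ := exists_level hK (x - 1)
  refine ⟨a, ⟨x, hx, by omega, h1, h2⟩, ?_⟩
  have h3 : (b + 1) ^ K ≤ x - 1 := by
    have h4 : (b + 1) ^ K ≤ (b + 2) ^ K := Nat.pow_le_pow_left (by omega) K
    omega
  have h5 : b + 1 < a + 1 := lt_of_pow_lt_pow_left₀ K (by omega) (lt_of_le_of_lt h3 h2)
  omega

/-- every value of the census is taken at a level which meets `T` -/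
theorem exists_lc {T : Set ℕ} (hT : T.Infinite) {K : ℕ} (hK : 1 ≤ K) (j : ℕ) :
    ∃ g n, n ∈ T ∧ 1 ≤ n ∧ g ^ K ≤ n - 1 ∧ n - 1 < (g + 1) ^ K ∧ lc T K g = j ∧ j ≤ g := by
  classical
  have hi := lv_infinite hT hK
  have h1 : Lv T K (Nat.nth (Lv T K) j) := Nat.nth_mem_of_infinite hi j
  have h2 : lc T K (Nat.nth (Lv T K) j) = j := by
    unfold lc
    convert Nat.count_nth_of_infinite hi j
  obtain ⟨x, hx, hx1, h3, h4⟩ := h1
  refine ⟨_, x, hx, hx1, h3, h4, h2, ?_⟩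
  have h5 := lc_le T K (Nat.nth (Lv T K) j)
  rw [h2] at h5
  exact h5

end Pool.Agent.Helper14.QG
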