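import Pool.Agent.Helper14.QG.H0
import Pool.Agent.Helper14.QG.Lev
import Pool.Agent.Helper20.QG.H2

/-!
# QuantifierGap, block H: numeric bounds
-/

set_option autoImplicit false

namespace Pool.Agent.Helper14.QG

open Pool.Agent.Helper20.Spectra Pool.Agent.Helper58.QD Pool.Agent.Helper12.SS
open Pool.Agent.Helper20.QG (lev)

/-- (N1) -/
theorem num_u (k t c K κ : ℕ) (hκ : 4 * c + 4 ≤ κ) : ∃ g₀, ∀ g, g₀ ≤ g → ∀ n B x,
    B * B + x + 1 = n → x < 2 * B + 1 → 4 ≤ B → n ≤ (g + 1) ^ K →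
    2 ^ ((Nat.log 2 (ux (((n + B ^ g) ^ 2 + n) ^ (k + 1)) t) + 1) ^ c) ≤ B ^ (g ^ κ) := by
  obtain ⟨g₁, hg₁⟩ := log_growth 1 K
  refine ⟨g₁ + 10 * k + 3 * t + 20, fun g hg n B x hn hx hB hnK => ?_⟩
  have hn2 : n ≤ (B + 1) ^ 2 := by
    rw [← hn]
    nlinarith
  have hn3 : n ≤ B ^ 3 := by
    refine hn2.trans ?_
    nlinarith
  have hng : n ≤ B ^ g := hn3.trans (Nat.pow_le_pow_right (by omega) (by omega))
  have h1 : n + B ^ g ≤ B ^ (g + 1) := by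
    have h2 : B ^ g * 2 ≤ B ^ g * B := Nat.mul_le_mul_left _ (by omega)
    rw [pow_succ]
    omega
  obtain ⟨m, hm⟩ : ∃ m, m = (n + B ^ g) ^ 2 + n := ⟨_, rfl⟩
  rw [← hm]
  have h3 : m ≤ B ^ (2 * g + 3) := by
    have h4 : (n + B ^ g) ^ 2 ≤ B ^ (2 * g + 2) := by
      calc (n + B ^ g) ^ 2 ≤ (B ^ (g + 1)) ^ 2 := Nat.pow_le_pow_left h1 2
        _ = B ^ (2 * g + 2) := by rw [← pow_mul]; congr 1; ring
    have h5 : B ^ g ≤ B ^ (2 * g + 2) := Nat.pow_le_pow_right (by omega) (by omega)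
    have h6 : B ^ (2 * g + 2) * 2 ≤ B ^ (2 * g + 2) * B := Nat.mul_le_mul_left _ (by omega)
    have h7 : B ^ (2 * g + 3) = B ^ (2 * g + 2) * B := by rw [← pow_succ]
    omega
  have h8 : m ^ (k + 1) ≤ B ^ ((2 * g + 3) * (k + 1)) := by
    rw [pow_mul]
    exact Nat.pow_le_pow_left h3 _
  have h9 : m ^ (k + 1) + (2 + t) ≤ B ^ ((2 * g + 3) * (k + 1) + (2 + t)) :=
    le_add_const (2 + t) (by omega) h8
  have h10 := le_mul_self h9
  have h11 := le_add_const t (by omega : 2 ≤ B) h10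
  obtain ⟨X, hX⟩ : ∃ X, X = 2 * ((2 * g + 3) * (k + 1) + (2 + t)) + t + 1 := ⟨_, rfl⟩
  have h12 : ux (m ^ (k + 1)) t < B ^ X := by
    have h13 : ux (m ^ (k + 1)) t ≤ B ^ (2 * ((2 * g + 3) * (k + 1) + (2 + t)) + t) := by
      unfold ux
      rw [add_assoc (m ^ (k + 1)) 2 t]
      exact h11
    refine lt_of_le_of_lt h13 ?_
    rw [hX]
    exact Nat.pow_lt_pow_right (by omega) (by omega)
  have h14 := log_pow_le (by omega : 2 ≤ B) h12 (by omega)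
  have h15 : X ≤ g ^ 2 := by
    obtain ⟨r, hr⟩ : ∃ r, g = 10 * k + 3 * t + 20 + r := ⟨g - (10 * k + 3 * t + 20), by omega⟩
    rw [hX]
    have h16 : (4 * g + 6) * (k + 1) + 5 + 3 * t ≤ g * (10 * k + 3 * t + 20) := by
      have h17 : 20 ≤ g := by omega
      nlinarith [Nat.mul_le_mul_right k h17, Nat.mul_le_mul_right t h17]
    have h18 : g * (10 * k + 3 * t + 20) ≤ g * g := Nat.mul_le_mul_left _ (by omega)
    rw [pow_two]
    nlinarith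
  have hBn : B ≤ n := by nlinarith
  have h19 : Nat.log 2 B + 1 ≤ g := by
    have h20 := hg₁ g (by omega) B (hBn.trans hnK)
    rwa [pow_one] at h20
  have h21 : Nat.log 2 (ux (m ^ (k + 1)) t) + 1 ≤ g ^ 3 := by
    calc _ ≤ X * (Nat.log 2 B + 1) := h14
      _ ≤ g ^ 2 * g := Nat.mul_le_mul h15 h19
      _ = g ^ 3 := by ring
  have h22 : (Nat.log 2 (ux (m ^ (k + 1)) t) + 1) ^ c ≤ g ^ κ := by
    calc _ ≤ (g ^ 3) ^ c := Nat.pow_le_pow_left h21 c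
      _ = g ^ (3 * c) := by rw [← pow_mul]
      _ ≤ g ^ κ := Nat.pow_le_pow_right (by omega) (by omega)
  calc _ ≤ 2 ^ (g ^ κ) := Nat.pow_le_pow_right (by norm_num) h22
    _ ≤ B ^ (g ^ κ) := Nat.pow_le_pow_left (by omega) _

/-- (N2) -/
theorem num_p (c K : ℕ) : ∃ g₀, ∀ g, g₀ ≤ g → ∀ n B y, n ≤ (g + 1) ^ K → y ≤ n → 2 ≤ B →
    2 ^ ((Nat.log 2 y + 1) ^ c) ≤ B ^ g := by
  obtain ⟨g₁, hg₁⟩ := log_growth c K
  refine ⟨g₁, fun g hg n B y hn hy hB => ?_⟩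
  calc _ ≤ 2 ^ g := Nat.pow_le_pow_right (by norm_num) (hg₁ g hg y (hy.trans hn))
    _ ≤ B ^ g := Nat.pow_le_pow_left hB _

/-- (N3) -/
theorem num_s {κ g n B x : ℕ} (hg : 3 ≤ g) (h : g ^ (5 * (2 * κ + 5)) < n)
    (hn : B * B + x + 1 = n) (hx : x < 2 * B + 1) :
    (g ^ (κ + 2) + 1) * g ^ (κ + 2) ≤ sr n ∧ (g ^ (κ + 2) + 1) * g ^ (κ + 2) ≤ B := by
  obtain ⟨w, hw⟩ : ∃ w, w = g ^ (2 * κ + 5) := ⟨_, rfl⟩
  have h1 : (g ^ (κ + 2) + 1) * g ^ (κ + 2) ≤ w := by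
    have h2 : 1 ≤ g ^ (κ + 2) := Nat.one_le_pow _ _ (by omega)
    calc (g ^ (κ + 2) + 1) * g ^ (κ + 2) ≤ (g ^ (κ + 2) * g) * g ^ (κ + 2) := by
          refine Nat.mul_le_mul_right _ ?_
          nlinarith
      _ = w := by
          rw [hw]
          ring
  have h3 : w ^ 5 < n := by
    rw [hw, ← pow_mul, mul_comm]
    exact h
  have h4 : w ≤ w ^ 5 := Nat.le_self_pow (by norm_num) _
  have h5 : w ≤ sr n := by
    unfold sr
    exact Nat.le_findGreatest (P := fun b => b ^ 5 ≤ n) (by omega) h3.le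
  have h6 : w ≤ B := by
    by_contra h7
    push Not at h7
    have h8 : n ≤ (B + 1) ^ 2 := by
      rw [← hn]
      nlinarith
    have h9 : (B + 1) ^ 2 ≤ w ^ 2 := Nat.pow_le_pow_left h7 2
    have h10 : w ^ 2 ≤ w ^ 5 := Nat.pow_le_pow_right (by omega) (by norm_num)
    omega
  exact ⟨h1.trans h5, h1.trans h6⟩

open Classical in
/-- (N4) -/
theorem ex_lev {T : Set ℕ} {K : ℕ} (hK : 1 ≤ K) (hT : T.Infinite) (h0 : 0 ∉ T) (g₀ s : ℕ) :
    ∃ C g n, s < 2 * C + 1 ∧ g₀ ≤ g ∧ n ∈ T ∧ g ^ K < n ∧ n ≤ (g + 1) ^ K ∧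
      C * C + s = Nat.count (lev T K) g := by
  have hi : {a | lev T K a}.Infinite := by
    rw [Set.infinite_iff_exists_gt]
    intro b
    obtain ⟨y, hy, hby⟩ := (Set.infinite_iff_exists_gt.1 hT) ((b + 2) ^ K)
    obtain ⟨a, h1, h2⟩ := exists_level hK (y - 1)
    refine ⟨a, ⟨y, hy, by omega, by omega⟩, ?_⟩
    have h3 : (b + 1) ^ K ≤ y - 1 := by
      have h4 : (b + 1) ^ K ≤ (b + 2) ^ K := Nat.pow_le_pow_left (by omega) K
      omega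
    have h5 : b + 1 < a + 1 := lt_of_pow_lt_pow_left₀ K (by omega) (lt_of_le_of_lt h3 h2)
    omega
  obtain ⟨C, hC⟩ : ∃ C, C = s + g₀ := ⟨_, rfl⟩
  have h1 : lev T K (Nat.nth (lev T K) (C * C + s)) := Nat.nth_mem_of_infinite hi _
  have h2 : Nat.count (lev T K) (Nat.nth (lev T K) (C * C + s)) = C * C + s :=
    Nat.count_nth_of_infinite hi _
  have h3 : Nat.count (lev T K) (Nat.nth (lev T K) (C * C + s)) ≤
    Nat.nth (lev T K) (C * C + s) := Nat.count_le _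
  obtain ⟨y, hy, h4, h5⟩ := h1
  refine ⟨C, _, y, by omega, ?_, hy, h4, h5, h2.symm⟩
  have h6 : C ≤ C * C := Nat.le_mul_self C
  omega

end Pool.Agent.Helper14.QG
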